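import Mathlib

set_option autoImplicit false

/-! Elementary estimates for binomial coefficients. -/

namespace Pool.Agent.MP_5f127b_co

theorem sixteen_pow_le (k : ℕ) (hk : 1 ≤ k) : 16 ^ k ≤ 4 * k * Nat.centralBinom k ^ 2 := by
  induction k, hk using Nat.le_induction with
  | base => simp [Nat.centralBinom, Nat.choose]
  | succ k hk ih =>
    have h := Nat.succ_mul_centralBinom_succ k
    have h1 : (k + 1) * (4 * (k + 1) * Nat.centralBinom (k + 1) ^ 2) =
        4 * (2 * (2 * k + 1) * Nat.centralBinom k) ^ 2 := by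
      rw [← h]; ring
    have h2 : (k + 1) * 16 ^ (k + 1) ≤ (k + 1) * (4 * (k + 1) * Nat.centralBinom (k + 1) ^ 2) := by
      rw [h1]
      calc (k + 1) * 16 ^ (k + 1) = 16 * (k + 1) * 16 ^ k := by ring
        _ ≤ 16 * (k + 1) * (4 * k * Nat.centralBinom k ^ 2) := Nat.mul_le_mul_left _ ih
        _ = 16 * (4 * k * (k + 1)) * Nat.centralBinom k ^ 2 := by ring
        _ ≤ 16 * ((2 * k + 1) ^ 2) * Nat.centralBinom k ^ 2 := by
            apply Nat.mul_le_mul_right
            apply Nat.mul_le_mul_left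
            nlinarith
        _ = 4 * (2 * (2 * k + 1) * Nat.centralBinom k) ^ 2 := by ring
    exact Nat.le_of_mul_le_mul_left h2 (by omega)

theorem centralBinom_sq_le (j : ℕ) : (2 * j + 1) * Nat.centralBinom j ^ 2 ≤ 16 ^ j := by
  induction j with
  | zero => simp
  | succ j ih =>
    have h := Nat.succ_mul_centralBinom_succ j
    have h1 : (j + 1) ^ 2 * ((2 * (j + 1) + 1) * Nat.centralBinom (j + 1) ^ 2) =
        (2 * j + 3) * (2 * (2 * j + 1) * Nat.centralBinom j) ^ 2 := by
      rw [← h]; ring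
    have h2 : (j + 1) ^ 2 * ((2 * (j + 1) + 1) * Nat.centralBinom (j + 1) ^ 2) ≤
        (j + 1) ^ 2 * 16 ^ (j + 1) := by
      rw [h1]
      calc (2 * j + 3) * (2 * (2 * j + 1) * Nat.centralBinom j) ^ 2
          = 4 * ((2 * j + 3) * (2 * j + 1)) * ((2 * j + 1) * Nat.centralBinom j ^ 2) := by ring
        _ ≤ 4 * (4 * (j + 1) ^ 2) * 16 ^ j := by
            apply Nat.mul_le_mul _ ih
            apply Nat.mul_le_mul_left
            nlinarith
        _ = (j + 1) ^ 2 * 16 ^ (j + 1) := by ring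
    exact Nat.le_of_mul_le_mul_left h2 (by positivity)

theorem middle_sq_le (m : ℕ) : (m + 1) * (m.choose (m / 2)) ^ 2 ≤ 4 ^ m := by
  rcases Nat.even_or_odd' m with ⟨j, rfl | rfl⟩
  · have h := centralBinom_sq_le j
    rw [Nat.centralBinom] at h
    have e : 2 * j / 2 = j := by omega
    rw [e, pow_mul]
    exact h
  · have h := centralBinom_sq_le (j + 1)
    have e : (2 * j + 1) / 2 = j := by omega
    rw [e]
    have h1 : Nat.centralBinom (j + 1) = 2 * (2 * j + 1).choose j := by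
      rw [Nat.centralBinom_eq_two_mul_choose]
      have e2 : 2 * (j + 1) = (2 * j + 1) + 1 := by ring
      rw [e2, Nat.choose_succ_succ]
      have e3 : (2 * j + 1).choose (j + 1) = (2 * j + 1).choose j := by
        apply Nat.choose_symm_of_eq_add
        omega
      simp only [Nat.succ_eq_add_one]
      rw [e3]; ring
    rw [h1] at h
    have h2 : 4 * ((2 * j + 1 + 1) * (2 * j + 1).choose j ^ 2) ≤ 4 * 4 ^ (2 * j + 1) := by
      calc 4 * ((2 * j + 1 + 1) * (2 * j + 1).choose j ^ 2)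
          ≤ 4 * ((2 * (j + 1) + 1) * (2 * j + 1).choose j ^ 2) := by
            apply Nat.mul_le_mul_left
            apply Nat.mul_le_mul_right
            omega
        _ = (2 * (j + 1) + 1) * (2 * (2 * j + 1).choose j) ^ 2 := by ring
        _ ≤ 16 ^ (j + 1) := h
        _ = 4 * 4 ^ (2 * j + 1) := by
            rw [pow_succ 4 (2 * j), pow_mul]; ring
    exact Nat.le_of_mul_le_mul_left h2 (by norm_num)

theorem choose_add_lower (k r : ℕ) (hk : 1 ≤ k) (hr : r ≤ k) :
    (1 - (r : ℝ) ^ 2 / k) * (2 * k).choose k ≤ (2 * k).choose (k + r) := by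
  have hk0 : (0 : ℝ) < k := by exact_mod_cast hk
  induction r with
  | zero => simp
  | succ r ih =>
    have ih' := ih (by omega)
    have hrk : (r : ℝ) + 1 ≤ k := by exact_mod_cast hr
    have hr0 : (0 : ℝ) ≤ r := Nat.cast_nonneg r
    have h := Nat.choose_succ_right_eq (2 * k) (k + r)
    have e : 2 * k - (k + r) = k - r := by omega
    rw [e] at h
    have h' : ((2 * k).choose (k + (r + 1)) : ℝ) * (k + r + 1) =
        (2 * k).choose (k + r) * (k - r) := by
      have h2 : (((2 * k).choose (k + r + 1) * (k + r + 1) : ℕ) : ℝ) =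
          (((2 * k).choose (k + r) * (k - r) : ℕ) : ℝ) := by rw [h]
      push_cast [Nat.cast_sub (show r ≤ k by omega)] at h2
      exact h2
    have hden : (0 : ℝ) < k + r + 1 := by linarith
    have h3 : ((2 * k).choose (k + (r + 1)) : ℝ) =
        (2 * k).choose (k + r) * ((k - r) / (k + r + 1)) := by
      rw [← mul_div_assoc, eq_div_iff hden.ne']
      exact h'
    rw [h3]
    have hC : (0 : ℝ) ≤ (2 * k).choose k := Nat.cast_nonneg _
    have hf0 : 0 ≤ ((k : ℝ) - r) / (k + r + 1) := div_nonneg (by linarith) hden.le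
    have hf1 : ((k : ℝ) - r) / (k + r + 1) ≤ 1 := by
      rw [div_le_one hden]; linarith
    have hf2 : 1 - (2 * r + 1) / k ≤ ((k : ℝ) - r) / (k + r + 1) := by
      rw [sub_le_iff_le_add, div_add_div _ _ hden.ne' hk0.ne', le_div_iff₀ (mul_pos hden hk0)]
      nlinarith
    have h4 : (1 - ((r : ℝ) + 1) ^ 2 / k) ≤
        (1 - (r : ℝ) ^ 2 / k) * (((k : ℝ) - r) / (k + r + 1)) := by
      have e1 : ((r : ℝ) + 1) ^ 2 / k = (r : ℝ) ^ 2 / k + (2 * r + 1) / k := by
        rw [← add_div]; congr 1; ring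
      have a0 : 0 ≤ (r : ℝ) ^ 2 / k := by positivity
      have b0 : 0 ≤ (2 * (r : ℝ) + 1) / k := by positivity
      rw [e1]
      generalize (r : ℝ) ^ 2 / k = a at *
      generalize (2 * (r : ℝ) + 1) / k = b at *
      generalize ((k : ℝ) - r) / (k + r + 1) = f at *
      rcases le_total 0 (1 - a) with h0 | h0
      · nlinarith [mul_nonneg a0 b0, mul_le_mul_of_nonneg_left hf2 h0]
      · nlinarith [mul_nonneg (neg_nonneg.2 h0) (sub_nonneg.2 hf1)]
    push_cast
    calc (1 - ((r : ℝ) + 1) ^ 2 / k) * (2 * k).choose k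
        ≤ (1 - (r : ℝ) ^ 2 / k) * (((k : ℝ) - r) / (k + r + 1)) * (2 * k).choose k :=
          mul_le_mul_of_nonneg_right h4 hC
      _ = (1 - (r : ℝ) ^ 2 / k) * (2 * k).choose k * (((k : ℝ) - r) / (k + r + 1)) := by ring
      _ ≤ (2 * k).choose (k + r) * (((k : ℝ) - r) / (k + r + 1)) :=
          mul_le_mul_of_nonneg_right ih' hf0

theorem choose_half (k r : ℕ) (hk : 1 ≤ k) (hr : r = 1 ∨ 2 * r ^ 2 ≤ k) :
    ((2 * k).choose k : ℝ) / 2 ≤ (2 * k).choose (k + r) := by
  have hk0 : (0 : ℝ) < k := by exact_mod_cast hk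
  have hC : (0 : ℝ) ≤ (2 * k).choose k := Nat.cast_nonneg _
  have main : 2 * r ^ 2 ≤ k → ((2 * k).choose k : ℝ) / 2 ≤ (2 * k).choose (k + r) := by
    intro h
    have hrk : r ≤ k := by nlinarith
    have h1 := choose_add_lower k r hk hrk
    have h2 : (r : ℝ) ^ 2 / k ≤ 1 / 2 := by
      rw [div_le_iff₀ hk0]
      have : (2 * (r : ℝ) ^ 2) ≤ k := by exact_mod_cast h
      linarith
    nlinarith
  rcases hr with rfl | h
  · rcases Nat.lt_or_ge k 2 with hk2 | hk2
    · have : k = 1 := by omega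
      subst this
      norm_num [Nat.choose]
    · exact main (by omega)
  · exact main h

/-- The density constant. -/
theorem density (k r : ℕ) (hk : 1 ≤ k) (hrk : r ≤ k) (hr : r = 1 ∨ 2 * r ^ 2 ≤ k) :
    ((k + r).choose ((k + r) / 2) : ℝ) * 2 ^ (k - r) ≤ 4 * (2 * k).choose (k + r) := by
  have hk0 : (0 : ℝ) < k := by exact_mod_cast hk
  have h1 : (16 : ℝ) ^ k ≤ 4 * k * ((2 * k).choose k : ℝ) ^ 2 := by
    have := sixteen_pow_le k hk
    rw [Nat.centralBinom] at this
    exact_mod_cast this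
  have h2 : ((k + r : ℝ) + 1) * ((k + r).choose ((k + r) / 2) : ℝ) ^ 2 ≤ 4 ^ (k + r) := by
    have := middle_sq_le (k + r)
    exact_mod_cast this
  have h3 := choose_half k r hk hr
  have hC : (0 : ℝ) ≤ (2 * k).choose k := Nat.cast_nonneg _
  have hC' : (0 : ℝ) ≤ (2 * k).choose (k + r) := Nat.cast_nonneg _
  apply le_of_sq_le_sq _ (by positivity)
  have h4 : ((2 : ℝ) ^ (k - r)) ^ 2 = 4 ^ (k - r) := by
    rw [← pow_mul, mul_comm, pow_mul]; norm_num
  rw [mul_pow, h4, mul_pow]
  have h5 : (k : ℝ) * (((k + r).choose ((k + r) / 2) : ℝ) ^ 2 * 4 ^ (k - r)) ≤ 16 ^ k := by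
    have e : (16 : ℝ) ^ k = 4 ^ (k + r) * 4 ^ (k - r) := by
      rw [← pow_add]
      have : k + r + (k - r) = 2 * k := by omega
      rw [this, pow_mul]; norm_num
    rw [e, ← mul_assoc]
    apply mul_le_mul_of_nonneg_right _ (by positivity)
    refine le_trans ?_ h2
    apply mul_le_mul_of_nonneg_right _ (by positivity)
    have : (0 : ℝ) ≤ r := Nat.cast_nonneg r
    linarith
  have h6 : (16 : ℝ) ^ k ≤ 4 * k * (4 * ((2 * k).choose (k + r) : ℝ) ^ 2) := by
    refine le_trans h1 ?_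
    apply mul_le_mul_of_nonneg_left _ (by positivity)
    nlinarith
  have h7 : (k : ℝ) * (((k + r).choose ((k + r) / 2) : ℝ) ^ 2 * 4 ^ (k - r)) ≤
      (k : ℝ) * (4 ^ 2 * ((2 * k).choose (k + r) : ℝ) ^ 2) := by
    refine le_trans h5 (le_trans h6 (le_of_eq ?_))
    ring
  exact le_of_mul_le_mul_left h7 hk0

end Pool.Agent.MP_5f127b_co
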