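import Mathlib

set_option autoImplicit false

/-! Counting bijections that carry given finite sets to given finite sets. -/

namespace Pool.Agent.MP_5f127b_co

open Finset

variable {α β : Type*} [DecidableEq α] [Fintype α] [DecidableEq β] [Fintype β]

/-- Two colourings with equally large colour classes differ by a permutation. -/
theorem exists_perm_of_fibers {γ : Type*} [DecidableEq γ] (c c' : β → γ)
    (h : ∀ g, (univ.filter fun b => c b = g).card = (univ.filter fun b => c' b = g).card) :
    ∃ σ : Equiv.Perm β, ∀ b, c' (σ b) = c b := by
  have E : ∀ g, Nonempty ({b // c b = g} ≃ {b // c' b = g}) := by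
    intro g
    refine ⟨Fintype.equivOfCardEq ?_⟩
    rw [Fintype.card_subtype, Fintype.card_subtype]
    exact h g
  let F : ∀ g, {b // c b = g} ≃ {b // c' b = g} := fun g => Classical.choice (E g)
  refine ⟨(Equiv.sigmaFiberEquiv c).symm.trans
    ((Equiv.sigmaCongrRight F).trans (Equiv.sigmaFiberEquiv c')), fun b => ?_⟩
  exact (F ((Equiv.sigmaFiberEquiv c).symm b).1 ((Equiv.sigmaFiberEquiv c).symm b).2).2

/-- Transitivity of the symmetric group on pairs of sets with given intersection pattern. -/
theorem exists_perm_pair (B B' C C' : Finset β) (h1 : B.card = C.card) (h2 : B'.card = C'.card)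
    (h3 : (B \ B').card = (C \ C').card) :
    ∃ σ : Equiv.Perm β, B.map σ.toEmbedding = C ∧ B'.map σ.toEmbedding = C' := by
  have hi : (B ∩ B').card = (C ∩ C').card := by
    have e1 := card_sdiff_add_card_inter B B'
    have e2 := card_sdiff_add_card_inter C C'
    omega
  have hd : (B' \ B).card = (C' \ C).card := by
    have e1 := card_sdiff_add_card_inter B' B
    have e2 := card_sdiff_add_card_inter C' C
    rw [inter_comm] at e1 e2
    omega
  have hu : (B ∪ B').card = (C ∪ C').card := by
    have e1 := card_union_add_card_inter B B'
    have e2 := card_union_add_card_inter C C'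
    omega
  have fib : ∀ P Q : Finset β, ∀ g : Bool × Bool,
      (univ.filter fun b => (decide (b ∈ P), decide (b ∈ Q)) = g).card =
        match g with
        | (true, true) => (P ∩ Q).card
        | (true, false) => (P \ Q).card
        | (false, true) => (Q \ P).card
        | (false, false) => Fintype.card β - (P ∪ Q).card := by
    intro P Q g
    rcases g with ⟨_ | _, _ | _⟩
    · simp only
      rw [← card_compl]
      congr 1
      ext b
      simp
    · simp only
      congr 1
      ext b
      simp [and_comm]
    · simp only
      congr 1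
      ext b
      simp
    · simp only
      congr 1
      ext b
      simp
  obtain ⟨σ, hσ⟩ := exists_perm_of_fibers (fun b => (decide (b ∈ B), decide (b ∈ B')))
    (fun b => (decide (b ∈ C), decide (b ∈ C'))) (by
      intro g
      rw [fib B B' g, fib C C' g]
      rcases g with ⟨_ | _, _ | _⟩
      · simp only [hu]
      · simp only [hd]
      · simp only [h3]
      · simp only [hi])
  refine ⟨σ, ?_, ?_⟩
  · ext c
    rw [mem_map_equiv]
    have h := congrArg Prod.fst (hσ (σ.symm c))
    simp only [Equiv.apply_symm_apply, decide_eq_decide] at h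
    exact h.symm
  · ext c
    rw [mem_map_equiv]
    have h := congrArg Prod.snd (hσ (σ.symm c))
    simp only [Equiv.apply_symm_apply, decide_eq_decide] at h
    exact h.symm

/-- Number of bijections carrying `(D, D')` to `(B, B')`. -/
def cnt (D D' : Finset α) (B B' : Finset β) : ℕ :=
  (univ.filter fun e : α ≃ β => D.map e.toEmbedding = B ∧ D'.map e.toEmbedding = B').card

theorem cnt_eq (D D' : Finset α) (B B' C C' : Finset β) (h1 : B.card = C.card)
    (h2 : B'.card = C'.card) (h3 : (B \ B').card = (C \ C').card) :
    cnt D D' B B' = cnt D D' C C' := by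
  have key : ∀ (P P' Q Q' : Finset β), P.card = Q.card → P'.card = Q'.card →
      (P \ P').card = (Q \ Q').card → cnt D D' P P' ≤ cnt D D' Q Q' := by
    intro P P' Q Q' h1 h2 h3
    obtain ⟨σ, hσ, hσ'⟩ := exists_perm_pair P P' Q Q' h1 h2 h3
    unfold cnt
    apply card_le_card_of_injOn (fun e => e.trans σ)
    · intro e he
      rw [mem_coe, mem_filter] at he ⊢
      refine ⟨mem_univ _, ?_, ?_⟩
      · rw [← hσ, ← he.2.1, map_map]; rfl
      · rw [← hσ', ← he.2.2, map_map]; rfl
    · intro e _ e' _ hee
      ext a
      have := congrArg (fun f : α ≃ β => f a) hee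
      simpa using this
  exact le_antisymm (key _ _ _ _ h1 h2 h3) (key _ _ _ _ h1.symm h2.symm h3.symm)

/-- Pairs of `m`-sets with difference of size `t`. -/
def pairs (β : Type*) [DecidableEq β] [Fintype β] (m t : ℕ) : Finset (Finset β × Finset β) :=
  univ.filter fun p => p.1.card = m ∧ p.2.card = m ∧ (p.1 \ p.2).card = t

theorem card_pairs_le (m t : ℕ) :
    (pairs β m t).card ≤
      (Fintype.card β).choose m * (m.choose t * (Fintype.card β - m).choose t) := by
  have hsub : pairs β m t ⊆ (powersetCard m (univ : Finset β)).biUnion fun C =>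
      (powersetCard t C ×ˢ powersetCard t Cᶜ).image fun q => (C, (C \ q.1) ∪ q.2) := by
    rintro ⟨C, C'⟩ h
    simp only [pairs, mem_filter, mem_univ, true_and] at h
    obtain ⟨h1, h2, h3⟩ := h
    rw [mem_biUnion]
    refine ⟨C, by simp [h1], ?_⟩
    rw [mem_image]
    refine ⟨(C \ C', C' \ C), ?_, ?_⟩
    · rw [mem_product, mem_powersetCard, mem_powersetCard]
      refine ⟨⟨sdiff_subset, h3⟩, ?_, ?_⟩
      · intro b hb
        rw [mem_sdiff] at hb
        rw [mem_compl]
        exact hb.2
      · have e1 := card_sdiff_add_card_inter C C'
        have e2 := card_sdiff_add_card_inter C' C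
        rw [inter_comm] at e2
        change (C' \ C).card = t
        omega
    · ext b
      · rfl
      · simp only [mem_union, mem_sdiff]
        tauto
  refine le_trans (card_le_card hsub) ?_
  refine le_trans card_biUnion_le ?_
  calc ∑ C ∈ powersetCard m (univ : Finset β),
        ((powersetCard t C ×ˢ powersetCard t Cᶜ).image fun q => (C, (C \ q.1) ∪ q.2)).card
      ≤ ∑ C ∈ powersetCard m (univ : Finset β),
          (m.choose t * (Fintype.card β - m).choose t) := by
        apply sum_le_sum
        intro C hC
        rw [mem_powersetCard] at hC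
        refine le_trans card_image_le ?_
        rw [card_product, card_powersetCard, card_powersetCard, card_compl, hC.2]
    _ = (Fintype.card β).choose m * (m.choose t * (Fintype.card β - m).choose t) := by
        rw [sum_const, card_powersetCard, card_univ, smul_eq_mul]

/-- Lower bound for the number of bijections carrying a pair of sets to a pair of sets. -/
theorem factorial_le_cnt (hαβ : Fintype.card α = Fintype.card β) (m t : ℕ) (D D' : Finset α)
    (hD : D.card = m) (hD' : D'.card = m) (hDD : (D \ D').card = t) (B B' : Finset β)
    (hB : B.card = m) (hB' : B'.card = m) (hBB : (B \ B').card = t) :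
    (Fintype.card β).factorial ≤ cnt D D' B B' *
      ((Fintype.card β).choose m * (m.choose t * (Fintype.card β - m).choose t)) := by
  have hE : Fintype.card (α ≃ β) = (Fintype.card β).factorial := by
    obtain ⟨e⟩ := Fintype.card_eq.1 hαβ
    rw [Fintype.card_equiv e, hαβ]
  have h1 : Fintype.card (α ≃ β) = ∑ p ∈ pairs β m t, cnt D D' p.1 p.2 := by
    rw [← card_univ, card_eq_sum_card_fiberwise (t := pairs β m t)
      (f := fun e : α ≃ β => (D.map e.toEmbedding, D'.map e.toEmbedding))]
    · apply sum_congr rfl
      intro p _
      unfold cnt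
      congr 1
      ext e
      simp [Prod.ext_iff]
    · intro e _
      rw [mem_coe]
      simp only [pairs, mem_filter, mem_univ, true_and, card_map, hD, hD']
      rw [← Finset.map_sdiff, card_map, hDD]
  have h2 : ∑ p ∈ pairs β m t, cnt D D' p.1 p.2 = (pairs β m t).card * cnt D D' B B' := by
    rw [sum_const_nat]
    intro p hp
    simp only [pairs, mem_filter, mem_univ, true_and] at hp
    exact cnt_eq D D' _ _ _ _ (hp.1.trans hB.symm) (hp.2.1.trans hB'.symm)
      (hp.2.2.trans hBB.symm)
  rw [← hE, h1, h2, mul_comm]
  exact Nat.mul_le_mul_left _ (card_pairs_le m t)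

/-- Number of bijections carrying one set to another. -/
theorem card_filter_map_eq (hαβ : Fintype.card α = Fintype.card β) (m : ℕ) (D : Finset α)
    (hD : D.card = m) (B : Finset β) (hB : B.card = m) :
    (univ.filter fun e : α ≃ β => D.map e.toEmbedding = B).card * (Fintype.card β).choose m =
      (Fintype.card β).factorial := by
  have hE : Fintype.card (α ≃ β) = (Fintype.card β).factorial := by
    obtain ⟨e⟩ := Fintype.card_eq.1 hαβ
    rw [Fintype.card_equiv e, hαβ]
  have hc : ∀ C : Finset β, (univ.filter fun e : α ≃ β => D.map e.toEmbedding = C).card =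
      cnt D D C C := by
    intro C
    simp [cnt]
  have h1 : Fintype.card (α ≃ β) = ∑ C ∈ powersetCard m (univ : Finset β),
      (univ.filter fun e : α ≃ β => D.map e.toEmbedding = C).card := by
    rw [← card_univ, card_eq_sum_card_fiberwise (t := powersetCard m (univ : Finset β))
      (f := fun e : α ≃ β => D.map e.toEmbedding)]
    intro e _
    rw [mem_coe, mem_powersetCard, card_map]
    exact ⟨subset_univ _, hD⟩
  have h2 : ∑ C ∈ powersetCard m (univ : Finset β),
      (univ.filter fun e : α ≃ β => D.map e.toEmbedding = C).card =
      (powersetCard m (univ : Finset β)).card *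
        (univ.filter fun e : α ≃ β => D.map e.toEmbedding = B).card := by
    rw [sum_const_nat]
    intro C hC
    rw [mem_powersetCard] at hC
    rw [hc, hc]
    exact cnt_eq D D _ _ _ _ (hC.2.trans hB.symm) (hC.2.trans hB.symm) (by simp)
  rw [← hE, h1, h2, card_powersetCard, card_univ, mul_comm]

end Pool.Agent.MP_5f127b_co
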