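import Mathlib

set_option autoImplicit false

/-!
A Talagrand type inequality on the discrete cube and its consequence for vertex boundaries.
The cube is the family of all subsets of a finite set.
-/

namespace Pool.Agent.MP_5f127b_co

open Finset

variable {ι : Type*} [DecidableEq ι]

/-- One sided local variation of `f` at `x` in the directions of `s`. -/
noncomputable def hfun (s : Finset ι) (f : Finset ι → ℝ) (x : Finset ι) : ℝ :=
  ∑ i ∈ s, max (f x - f (symmDiff x {i})) 0

theorem hfun_nonneg (s : Finset ι) (f : Finset ι → ℝ) (x : Finset ι) : 0 ≤ hfun s f x :=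
  sum_nonneg fun _ _ => le_max_right _ _

/-- The two point inequality. -/
theorem two_point (a b : ℝ) (ha0 : 0 ≤ a) (ha1 : a ≤ 1) (hb0 : 0 ≤ b) (hb1 : b ≤ 1) :
    2 * ((a + b) / 2 * (1 - (a + b) / 2)) ≤
      Real.sqrt ((a * (1 - a)) ^ 2 + (a - b) ^ 2) + b * (1 - b) := by
  have h1 : 2 * ((a + b) / 2 * (1 - (a + b) / 2)) - b * (1 - b) ≤
      Real.sqrt ((a * (1 - a)) ^ 2 + (a - b) ^ 2) := by
    apply Real.le_sqrt_of_sq_le
    have e : 2 * ((a + b) / 2 * (1 - (a + b) / 2)) - b * (1 - b)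
        = a * (1 - a) + (a - b) ^ 2 / 2 := by ring
    rw [e]
    have hJ : a * (1 - a) ≤ 1 / 4 := by nlinarith [sq_nonneg (a - 1 / 2)]
    have hd : (a - b) ^ 2 ≤ 1 := by nlinarith
    have h0 : 0 ≤ (a - b) ^ 2 := sq_nonneg _
    have e2 : (a * (1 - a) + (a - b) ^ 2 / 2) ^ 2
        = (a * (1 - a)) ^ 2 + (a - b) ^ 2 * (a * (1 - a) + (a - b) ^ 2 / 4) := by ring
    rw [e2]
    have : (a - b) ^ 2 * (a * (1 - a) + (a - b) ^ 2 / 4) ≤ (a - b) ^ 2 * 1 := by
      apply mul_le_mul_of_nonneg_left _ h0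
      linarith
    linarith
  linarith

/-- Triangle inequality for sums of plane vectors. -/
theorem sqrt_sum_le {κ : Type*} (t : Finset κ) (X Y : κ → ℝ) :
    Real.sqrt ((∑ k ∈ t, X k) ^ 2 + (∑ k ∈ t, Y k) ^ 2) ≤
      ∑ k ∈ t, Real.sqrt (X k ^ 2 + Y k ^ 2) := by
  set p := ∑ k ∈ t, X k with hp
  set q := ∑ k ∈ t, Y k with hq
  set S := Real.sqrt (p ^ 2 + q ^ 2) with hS
  have hS2 : S ^ 2 = p ^ 2 + q ^ 2 := Real.sq_sqrt (by positivity)
  rcases eq_or_lt_of_le (Real.sqrt_nonneg (p ^ 2 + q ^ 2)) with h0 | h0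
  · rw [← hS] at h0
    rw [← h0]
    exact sum_nonneg fun _ _ => Real.sqrt_nonneg _
  · rw [← hS] at h0
    have key : ∀ k ∈ t, p * X k + q * Y k ≤ S * Real.sqrt (X k ^ 2 + Y k ^ 2) := by
      intro k _
      rw [hS, ← Real.sqrt_mul (by positivity)]
      apply Real.le_sqrt_of_sq_le
      nlinarith [sq_nonneg (p * Y k - q * X k)]
    have h1 : S ^ 2 ≤ S * ∑ k ∈ t, Real.sqrt (X k ^ 2 + Y k ^ 2) := by
      calc S ^ 2 = ∑ k ∈ t, (p * X k + q * Y k) := by
            rw [sum_add_distrib, ← mul_sum, ← mul_sum, ← hp, ← hq, hS2]; ring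
        _ ≤ ∑ k ∈ t, S * Real.sqrt (X k ^ 2 + Y k ^ 2) := sum_le_sum key
        _ = _ := by rw [mul_sum]
    have h2 : S * S ≤ S * ∑ k ∈ t, Real.sqrt (X k ^ 2 + Y k ^ 2) := by rw [← sq]; exact h1
    exact le_of_mul_le_mul_left h2 h0

theorem max_sub_ind {u v : ℝ} (hu : u = 0 ∨ u = 1) (hv : v = 0 ∨ v = 1) :
    (max (u - v) 0) ^ 2 = max (u - v) 0 := by
  rcases hu with rfl | rfl <;> rcases hv with rfl | rfl <;> norm_num

theorem symmDiff_insert_comm {a i : ι} {x : Finset ι} (hax : a ∉ x) (hia : i ≠ a) :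
    symmDiff (insert a x) {i} = insert a (symmDiff x {i}) := by
  ext j
  simp only [mem_symmDiff, mem_insert, mem_singleton]
  by_cases hja : j = a
  · subst hja
    simp [hia.symm]
  · simp [hja]

theorem symmDiff_self_insert {a : ι} {x : Finset ι} (hax : a ∉ x) :
    symmDiff x {a} = insert a x := by
  ext j
  simp only [mem_symmDiff, mem_insert, mem_singleton]
  by_cases hja : j = a
  · subst hja
    simp [hax]
  · simp [hja]

theorem symmDiff_insert_self {a : ι} {x : Finset ι} (hax : a ∉ x) :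
    symmDiff (insert a x) {a} = x := by
  ext j
  simp only [mem_symmDiff, mem_insert, mem_singleton]
  by_cases hja : j = a
  · subst hja
    simp [hax]
  · simp [hja]

/-- Talagrand's inequality (up to the constant) for indicator functions on the cube. -/
theorem talagrand (s : Finset ι) (f : Finset ι → ℝ) (hf : ∀ x, f x = 0 ∨ f x = 1) :
    (∑ x ∈ s.powerset, f x) / 2 ^ s.card * (1 - (∑ x ∈ s.powerset, f x) / 2 ^ s.card) ≤
      (∑ x ∈ s.powerset, Real.sqrt (hfun s f x)) / 2 ^ s.card := by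
  induction s using Finset.induction_on generalizing f with
  | empty =>
    simp only [powerset_empty, sum_singleton, card_empty, pow_zero, div_one]
    rcases hf ∅ with h | h <;> rw [h] <;> simp
  | insert a s ha ih =>
    -- the two halves
    set f1 : Finset ι → ℝ := fun x => f (insert a x) with hf1
    have hf1' : ∀ x, f1 x = 0 ∨ f1 x = 1 := fun x => hf _
    have ih0 := ih f hf
    have ih1 := ih f1 hf1'
    have hpow : (0 : ℝ) < 2 ^ s.card := by positivity
    set A := (∑ x ∈ s.powerset, f x) / 2 ^ s.card with hA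
    set B := (∑ x ∈ s.powerset, f1 x) / 2 ^ s.card with hB
    have bound : ∀ g : Finset ι → ℝ, (∀ x, g x = 0 ∨ g x = 1) →
        0 ≤ (∑ x ∈ s.powerset, g x) / 2 ^ s.card ∧
          (∑ x ∈ s.powerset, g x) / 2 ^ s.card ≤ 1 := by
      intro g hg
      have g0 : ∀ x, 0 ≤ g x := fun x => by rcases hg x with h | h <;> rw [h]; norm_num
      have g1 : ∀ x, g x ≤ 1 := fun x => by rcases hg x with h | h <;> rw [h]; norm_num
      refine ⟨div_nonneg (sum_nonneg fun x _ => g0 x) hpow.le, ?_⟩
      rw [div_le_one hpow]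
      calc ∑ x ∈ s.powerset, g x ≤ ∑ x ∈ s.powerset, (1 : ℝ) := sum_le_sum fun x _ => g1 x
        _ = 2 ^ s.card := by simp
    obtain ⟨hA0, hA1⟩ := bound f hf
    obtain ⟨hB0, hB1⟩ := bound f1 hf1'
    rw [← hA] at hA0 hA1
    rw [← hB] at hB0 hB1
    have hsum : (∑ x ∈ (insert a s).powerset, f x) / 2 ^ (insert a s).card = (A + B) / 2 := by
      have e : ∑ t ∈ s.powerset, f (insert a t) = ∑ t ∈ s.powerset, f1 t := rfl
      rw [sum_powerset_insert ha, card_insert_of_notMem ha, hA, hB, pow_succ, e]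
      field_simp
    have hh0 : ∀ x ∈ s.powerset, hfun (insert a s) f x = hfun s f x + max (f x - f1 x) 0 := by
      intro x hx
      have hax : a ∉ x := fun h => ha (mem_powerset.1 hx h)
      unfold hfun
      rw [sum_insert ha, symmDiff_self_insert hax]
      ring
    have hh1 : ∀ x ∈ s.powerset,
        hfun (insert a s) f (insert a x) = hfun s f1 x + max (f1 x - f x) 0 := by
      intro x hx
      have hax : a ∉ x := fun h => ha (mem_powerset.1 hx h)
      unfold hfun
      rw [sum_insert ha, symmDiff_insert_self hax, add_comm]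
      congr 1
      apply sum_congr rfl
      intro i hi
      have hia : i ≠ a := fun h => ha (h ▸ hi)
      rw [symmDiff_insert_comm hax hia]
    have hsplit : ∑ x ∈ (insert a s).powerset, Real.sqrt (hfun (insert a s) f x) =
        ∑ x ∈ s.powerset, Real.sqrt (hfun s f x + max (f x - f1 x) 0) +
          ∑ x ∈ s.powerset, Real.sqrt (hfun s f1 x + max (f1 x - f x) 0) := by
      rw [sum_powerset_insert ha]
      congr 1
      · exact sum_congr rfl fun x hx => by rw [hh0 x hx]
      · exact sum_congr rfl fun x hx => by rw [hh1 x hx]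
    rw [hsum, hsplit, card_insert_of_notMem ha]
    -- general step: the half with the larger mean
    have step : ∀ g g' : Finset ι → ℝ, (∀ x, g x = 0 ∨ g x = 1) → (∀ x, g' x = 0 ∨ g' x = 1) →
        (∑ x ∈ s.powerset, g' x) / 2 ^ s.card ≤ (∑ x ∈ s.powerset, g x) / 2 ^ s.card →
        (∑ x ∈ s.powerset, g x) / 2 ^ s.card * (1 - (∑ x ∈ s.powerset, g x) / 2 ^ s.card) ≤
          (∑ x ∈ s.powerset, Real.sqrt (hfun s g x)) / 2 ^ s.card →
        Real.sqrt (((∑ x ∈ s.powerset, g x) / 2 ^ s.card *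
          (1 - (∑ x ∈ s.powerset, g x) / 2 ^ s.card)) ^ 2 +
          ((∑ x ∈ s.powerset, g x) / 2 ^ s.card - (∑ x ∈ s.powerset, g' x) / 2 ^ s.card) ^ 2) ≤
        (∑ x ∈ s.powerset, Real.sqrt (hfun s g x + max (g x - g' x) 0)) / 2 ^ s.card := by
      intro g g' hg hg' hle hih
      obtain ⟨hg0, hg1⟩ := bound g hg
      have h1 : (∑ x ∈ s.powerset, Real.sqrt (hfun s g x + max (g x - g' x) 0)) / 2 ^ s.card =
          (∑ x ∈ s.powerset, Real.sqrt ((Real.sqrt (hfun s g x)) ^ 2 +
            (max (g x - g' x) 0) ^ 2)) / 2 ^ s.card := by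
        congr 1
        apply sum_congr rfl
        intro x _
        rw [Real.sq_sqrt (hfun_nonneg _ _ _), max_sub_ind (hg x) (hg' x)]
      have h2 := sqrt_sum_le s.powerset (fun x => Real.sqrt (hfun s g x))
        (fun x => max (g x - g' x) 0)
      rw [h1]
      rw [le_div_iff₀ hpow]
      refine le_trans ?_ h2
      rw [← Real.sqrt_sq hpow.le, ← Real.sqrt_mul (by positivity)]
      apply Real.sqrt_le_sqrt
      rw [Real.sqrt_sq hpow.le, add_mul, ← mul_pow, ← mul_pow]
      have h3 : ∑ x ∈ s.powerset, g x - ∑ x ∈ s.powerset, g' x ≤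
          ∑ x ∈ s.powerset, max (g x - g' x) 0 := by
        rw [← sum_sub_distrib]
        exact sum_le_sum fun x _ => le_max_left _ _
      have h4 : (∑ x ∈ s.powerset, g x) / 2 ^ s.card *
          (1 - (∑ x ∈ s.powerset, g x) / 2 ^ s.card) * 2 ^ s.card ≤
          ∑ x ∈ s.powerset, Real.sqrt (hfun s g x) := by
        rwa [le_div_iff₀ hpow] at hih
      have h5 : ((∑ x ∈ s.powerset, g x) / 2 ^ s.card - (∑ x ∈ s.powerset, g' x) / 2 ^ s.card) *
          2 ^ s.card = ∑ x ∈ s.powerset, g x - ∑ x ∈ s.powerset, g' x := by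
        field_simp
      have h6 : 0 ≤ ∑ x ∈ s.powerset, g x - ∑ x ∈ s.powerset, g' x := by
        rw [div_le_div_iff_of_pos_right hpow] at hle
        linarith
      have h7 : 0 ≤ (∑ x ∈ s.powerset, g x) / 2 ^ s.card *
          (1 - (∑ x ∈ s.powerset, g x) / 2 ^ s.card) * 2 ^ s.card :=
        mul_nonneg (mul_nonneg hg0 (by linarith)) hpow.le
      rw [h5]
      exact add_le_add (pow_le_pow_left₀ h7 h4 2) (pow_le_pow_left₀ h6 h3 2)
    have triv : ∀ g g' : Finset ι → ℝ,
        (∑ x ∈ s.powerset, Real.sqrt (hfun s g x)) / 2 ^ s.card ≤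
        (∑ x ∈ s.powerset, Real.sqrt (hfun s g x + max (g x - g' x) 0)) / 2 ^ s.card := by
      intro g g'
      apply div_le_div_of_nonneg_right _ hpow.le
      apply sum_le_sum
      intro x _
      apply Real.sqrt_le_sqrt
      linarith [le_max_right (g x - g' x) 0]
    rw [pow_succ, ← div_div]
    rcases le_total B A with hBA | hAB
    · have s1 := step f f1 hf hf1' hBA ih0
      have s2 := (ih1.trans (triv f1 f))
      have s3 := two_point A B hA0 hA1 hB0 hB1
      rw [← hA, ← hB] at s1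
      rw [le_div_iff₀ (by norm_num), add_div (∑ x ∈ s.powerset, _)]
      linarith
    · have s1 := step f1 f hf1' hf hAB ih1
      have s2 := (ih0.trans (triv f f1))
      have s3 := two_point B A hB0 hB1 hA0 hA1
      rw [← hA, ← hB] at s1
      rw [le_div_iff₀ (by norm_num), add_div (∑ x ∈ s.powerset, _)]
      have e : (A + B) / 2 = (B + A) / 2 := by ring
      rw [e]
      linarith

end Pool.Agent.MP_5f127b_co
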