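import Mathlib
import Pool.Agent.MP_5f127b_co.Cube

set_option autoImplicit false

/-! Vertex boundaries and separated sets in the discrete cube. -/

namespace Pool.Agent.MP_5f127b_co

open Finset

variable {ι : Type*} [DecidableEq ι] [Fintype ι]

/-- Closed neighbourhood in the cube. -/
def nbhd (U : Finset (Finset ι)) : Finset (Finset ι) :=
  univ.filter fun y => y ∈ U ∨ ∃ i, symmDiff y {i} ∈ U

theorem subset_nbhd (U : Finset (Finset ι)) : U ⊆ nbhd U := by
  intro x hx
  simp [nbhd, hx]

theorem vertex_boundary (U : Finset (Finset ι)) :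
    ((U.card : ℝ) / 2 ^ Fintype.card ι) * (1 - (U.card : ℝ) / 2 ^ Fintype.card ι) ≤
      Real.sqrt (Fintype.card ι) *
        (((nbhd U).card : ℝ) / 2 ^ Fintype.card ι - (U.card : ℝ) / 2 ^ Fintype.card ι) := by
  classical
  set f : Finset ι → ℝ := fun x => if x ∈ U then 0 else 1 with hf
  have hf01 : ∀ x, f x = 0 ∨ f x = 1 := by
    intro x
    by_cases h : x ∈ U
    · left; simp [hf, h]
    · right; simp [hf, h]
  have hT := talagrand (univ : Finset ι) f hf01
  have hM : (0 : ℝ) < 2 ^ Fintype.card ι := by positivity
  rw [powerset_univ, card_univ] at hT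
  have hsum : ∑ x, f x = 2 ^ Fintype.card ι - U.card := by
    have h1 : ∀ x, f x = 1 - (if x ∈ U then 1 else 0) := by
      intro x
      by_cases h : x ∈ U <;> simp [hf, h]
    rw [sum_congr rfl fun x _ => h1 x, sum_sub_distrib]
    simp
  have hh : ∀ x, Real.sqrt (hfun univ f x) ≤
      if x ∈ nbhd U \ U then Real.sqrt (Fintype.card ι) else 0 := by
    intro x
    by_cases hx : x ∈ nbhd U \ U
    · rw [if_pos hx]
      apply Real.sqrt_le_sqrt
      unfold hfun
      calc ∑ i, max (f x - f (symmDiff x {i})) 0 ≤ ∑ i : ι, (1 : ℝ) := by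
            apply sum_le_sum
            intro i _
            rcases hf01 x with h | h <;> rcases hf01 (symmDiff x {i}) with h' | h' <;>
              rw [h, h'] <;> norm_num
        _ = Fintype.card ι := by simp
    · rw [if_neg hx]
      apply le_of_eq
      rw [Real.sqrt_eq_zero']
      apply le_of_eq
      unfold hfun
      apply sum_eq_zero
      intro i _
      rw [mem_sdiff, not_and_not_right] at hx
      by_cases hxU : x ∈ U
      · have : f x = 0 := by simp [hf, hxU]
        rw [this]
        rcases hf01 (symmDiff x {i}) with h' | h' <;> rw [h'] <;> norm_num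
      · have hxn : x ∉ nbhd U := fun h => hxU (hx h)
        have hxi : symmDiff x {i} ∉ U := by
          intro h
          apply hxn
          simp only [nbhd, mem_filter, mem_univ, true_and]
          exact Or.inr ⟨i, h⟩
        simp [hf, hxU, hxi]
  have hsum2 : ∑ x, Real.sqrt (hfun univ f x) ≤
      Real.sqrt (Fintype.card ι) * ((nbhd U).card - U.card) := by
    calc ∑ x, Real.sqrt (hfun univ f x)
        ≤ ∑ x, (if x ∈ nbhd U \ U then Real.sqrt (Fintype.card ι) else 0) :=
          sum_le_sum fun x _ => hh x
      _ = Real.sqrt (Fintype.card ι) * ((nbhd U \ U).card) := by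
          rw [← sum_filter, sum_const, nsmul_eq_mul, mul_comm]
          congr 2
          congr 1
          ext x
          simp
      _ = Real.sqrt (Fintype.card ι) * ((nbhd U).card - U.card) := by
          rw [card_sdiff_of_subset (subset_nbhd U), Nat.cast_sub (card_le_card (subset_nbhd U))]
  rw [hsum, sub_div, div_self hM.ne'] at hT
  have h3 : (∑ x, Real.sqrt (hfun univ f x)) / 2 ^ Fintype.card ι ≤
      Real.sqrt (Fintype.card ι) *
        (((nbhd U).card : ℝ) / 2 ^ Fintype.card ι - (U.card : ℝ) / 2 ^ Fintype.card ι) := by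
    rw [← sub_div, ← mul_div_assoc]
    exact div_le_div_of_nonneg_right hsum2 hM.le
  refine le_trans ?_ h3
  refine le_trans (le_of_eq ?_) hT
  ring

theorem card_symmDiff_triangle (x y z : Finset ι) :
    (symmDiff x z).card ≤ (symmDiff x y).card + (symmDiff y z).card := by
  refine le_trans (card_le_card ?_) (card_union_le _ _)
  have := symmDiff_triangle x y z
  simpa [Finset.sup_eq_union] using this

/-- Separated sets in the cube leave room between them. -/
theorem separated (r : ℕ) (U W : Finset (Finset ι))
    (h : ∀ x ∈ U, ∀ y ∈ W, r < (symmDiff x y).card) :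
    (r : ℝ) * (((U.card : ℝ) / 2 ^ Fintype.card ι) * ((W.card : ℝ) / 2 ^ Fintype.card ι)) ≤
      Real.sqrt (Fintype.card ι) *
        (1 - (U.card : ℝ) / 2 ^ Fintype.card ι - (W.card : ℝ) / 2 ^ Fintype.card ι) := by
  have hM : (0 : ℝ) < 2 ^ Fintype.card ι := by positivity
  induction r generalizing U with
  | zero =>
    have hdisj : Disjoint U W := by
      rw [disjoint_left]
      intro x hxU hxW
      have := h x hxU x hxW
      simp at this
    have hc : (U.card : ℝ) + W.card ≤ 2 ^ Fintype.card ι := by
      have h1 : (U ∪ W).card ≤ 2 ^ Fintype.card ι := by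
        rw [← Fintype.card_finset]
        exact card_le_univ _
      rw [card_union_of_disjoint hdisj] at h1
      exact_mod_cast h1
    have h2 : 0 ≤ 1 - (U.card : ℝ) / 2 ^ Fintype.card ι - (W.card : ℝ) / 2 ^ Fintype.card ι := by
      have : (U.card : ℝ) / 2 ^ Fintype.card ι + (W.card : ℝ) / 2 ^ Fintype.card ι ≤ 1 := by
        rw [← add_div, div_le_one hM]
        exact hc
      linarith
    simpa using mul_nonneg (Real.sqrt_nonneg _) h2
  | succ r ih =>
    have hdisj : Disjoint U W := by
      rw [disjoint_left]
      intro x hxU hxW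
      have := h x hxU x hxW
      simp at this
    have hc : (U.card : ℝ) + W.card ≤ 2 ^ Fintype.card ι := by
      have h1 : (U ∪ W).card ≤ 2 ^ Fintype.card ι := by
        rw [← Fintype.card_finset]
        exact card_le_univ _
      rw [card_union_of_disjoint hdisj] at h1
      exact_mod_cast h1
    have hUW : (W.card : ℝ) / 2 ^ Fintype.card ι ≤ 1 - (U.card : ℝ) / 2 ^ Fintype.card ι := by
      have : (U.card : ℝ) / 2 ^ Fintype.card ι + (W.card : ℝ) / 2 ^ Fintype.card ι ≤ 1 := by
        rw [← add_div, div_le_one hM]
        exact hc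
      linarith
    have hvb := vertex_boundary U
    have h' : ∀ x ∈ nbhd U, ∀ y ∈ W, r < (symmDiff x y).card := by
      intro x hx y hy
      simp only [nbhd, mem_filter, mem_univ, true_and] at hx
      rcases hx with hx | ⟨i, hi⟩
      · have := h x hx y hy
        omega
      · have h1 := h _ hi y hy
        have h2 := card_symmDiff_triangle (symmDiff x {i}) x y
        have h3 : symmDiff (symmDiff x {i}) x = {i} := by
          rw [symmDiff_comm, symmDiff_symmDiff_cancel_left]
        rw [h3, card_singleton] at h2
        omega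
    have ih' := ih (nbhd U) h'
    have hmono : (U.card : ℝ) / 2 ^ Fintype.card ι ≤ ((nbhd U).card : ℝ) / 2 ^ Fintype.card ι := by
      apply div_le_div_of_nonneg_right _ hM.le
      exact_mod_cast card_le_card (subset_nbhd U)
    have hu0 : 0 ≤ (U.card : ℝ) / 2 ^ Fintype.card ι := by positivity
    have hw0 : 0 ≤ (W.card : ℝ) / 2 ^ Fintype.card ι := by positivity
    generalize (U.card : ℝ) / 2 ^ Fintype.card ι = u at *
    generalize (W.card : ℝ) / 2 ^ Fintype.card ι = w at *
    generalize ((nbhd U).card : ℝ) / 2 ^ Fintype.card ι = v at *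
    have e1 : u * w ≤ u * (1 - u) := mul_le_mul_of_nonneg_left hUW hu0
    have e2 : (r : ℝ) * (u * w) ≤ (r : ℝ) * (v * w) := by
      apply mul_le_mul_of_nonneg_left _ (Nat.cast_nonneg r)
      exact mul_le_mul_of_nonneg_right hmono hw0
    push_cast
    nlinarith

end Pool.Agent.MP_5f127b_co
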