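import Mathlib
import Pool.Agent.MP_5f127b_co.Sep
import Pool.Agent.MP_5f127b_co.Count

set_option autoImplicit false

/-! Separated families in a layer of the cube, by averaging over embedded subcubes. -/

namespace Pool.Agent.MP_5f127b_co

open Finset

/-- The position selected in the `i`-th pair by `x`. -/
def pos (N : ℕ) (x : Finset (Fin N)) : Fin N ↪ Fin N × Bool :=
  ⟨fun i => (i, decide (i ∈ x)), fun _ _ h => (Prod.ext_iff.1 h).1⟩

theorem pos_apply (N : ℕ) (x : Finset (Fin N)) (i : Fin N) : pos N x i = (i, decide (i ∈ x)) := rfl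

/-- The base set chosen by the point `x` of the small cube: one element of each pair and all the
remaining elements. -/
def SS (N R : ℕ) (x : Finset (Fin N)) : Finset ((Fin N × Bool) ⊕ Fin R) :=
  disjSum (univ.map (pos N x)) univ

theorem card_SS (N R : ℕ) (x : Finset (Fin N)) : (SS N R x).card = N + R := by
  simp [SS]

theorem inl_mem_SS (N R : ℕ) (x : Finset (Fin N)) (i : Fin N) (b : Bool) :
    (Sum.inl (i, b) : (Fin N × Bool) ⊕ Fin R) ∈ SS N R x ↔ b = decide (i ∈ x) := by
  unfold SS
  rw [inl_mem_disjSum, mem_map]
  constructor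
  · rintro ⟨k, _, hk⟩
    rw [pos_apply, Prod.mk.injEq] at hk
    obtain ⟨rfl, hk⟩ := hk
    exact hk.symm
  · rintro rfl
    exact ⟨i, mem_univ _, rfl⟩

theorem inr_mem_SS (N R : ℕ) (x : Finset (Fin N)) (j : Fin R) :
    (Sum.inr j : (Fin N × Bool) ⊕ Fin R) ∈ SS N R x := by
  simp [SS]

theorem card_SS_sdiff (N R : ℕ) (x y : Finset (Fin N)) :
    (SS N R x \ SS N R y).card = (symmDiff x y).card := by
  have h : SS N R x \ SS N R y = (symmDiff x y).map
      ((pos N x).trans Function.Embedding.inl) := by
    ext a
    rcases a with ⟨i, b⟩ | j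
    · rw [mem_sdiff, inl_mem_SS, inl_mem_SS, mem_map]
      constructor
      · rintro ⟨h1, h2⟩
        refine ⟨i, ?_, by rw [h1]; rfl⟩
        rw [h1] at h2
        rw [mem_symmDiff]
        by_cases hx : i ∈ x <;> by_cases hy : i ∈ y <;> simp_all
      · rintro ⟨k, hk, hkb⟩
        have hkb' : (k, decide (k ∈ x)) = (i, b) := Sum.inl_injective hkb
        rw [Prod.mk.injEq] at hkb'
        obtain ⟨rfl, hb⟩ := hkb'
        refine ⟨hb.symm, ?_⟩
        rw [← hb]
        rw [mem_symmDiff] at hk
        by_cases hx : k ∈ x <;> by_cases hy : k ∈ y <;> simp_all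
    · rw [mem_sdiff, mem_map]
      constructor
      · rintro ⟨_, h2⟩
        exact absurd (inr_mem_SS N R y j) h2
      · rintro ⟨k, _, hk⟩
        simp at hk
  rw [h, card_map]

variable {β : Type*} [DecidableEq β] [Fintype β]

/-- The trace of a family on the embedded subcube. -/
def trace (N R : ℕ) (U : Finset (Finset β)) (e : ((Fin N × Bool) ⊕ Fin R) ≃ β) :
    Finset (Finset (Fin N)) :=
  univ.filter fun x => (SS N R x).map e.toEmbedding ∈ U

theorem card_trace (N R : ℕ) (U : Finset (Finset β)) (e : ((Fin N × Bool) ⊕ Fin R) ≃ β) :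
    ((trace N R U e).card : ℝ) =
      ∑ x : Finset (Fin N), ∑ B ∈ U, if (SS N R x).map e.toEmbedding = B then (1 : ℝ) else 0 := by
  unfold trace
  rw [card_filter]
  push_cast
  apply sum_congr rfl
  intro x _
  rw [sum_ite_eq]

theorem card_index {N R : ℕ} (hβ : Fintype.card β = 2 * N + R) :
    Fintype.card ((Fin N × Bool) ⊕ Fin R) = Fintype.card β := by
  simp [hβ, mul_comm]

/-- First moment of the trace. -/
theorem sum_card_trace {N R : ℕ} (hβ : Fintype.card β = 2 * N + R) (U : Finset (Finset β))
    (hU : ∀ B ∈ U, B.card = N + R) :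
    ∑ e : ((Fin N × Bool) ⊕ Fin R) ≃ β, ((trace N R U e).card : ℝ) / 2 ^ N =
      (Fintype.card β).factorial * ((U.card : ℝ) / (Fintype.card β).choose (N + R)) := by
  have hch : (0 : ℝ) < (Fintype.card β).choose (N + R) := by
    exact_mod_cast Nat.choose_pos (by omega)
  have h2 : (0 : ℝ) < 2 ^ N := by positivity
  have h1 : ∑ e : ((Fin N × Bool) ⊕ Fin R) ≃ β, ((trace N R U e).card : ℝ) =
      ∑ x : Finset (Fin N), ∑ B ∈ U,
        ((Fintype.card β).factorial / (Fintype.card β).choose (N + R) : ℝ) := by
    calc ∑ e : ((Fin N × Bool) ⊕ Fin R) ≃ β, ((trace N R U e).card : ℝ)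
        = ∑ e : ((Fin N × Bool) ⊕ Fin R) ≃ β, ∑ x : Finset (Fin N), ∑ B ∈ U,
            (if (SS N R x).map e.toEmbedding = B then (1 : ℝ) else 0) :=
          sum_congr rfl fun e _ => card_trace N R U e
      _ = ∑ x : Finset (Fin N), ∑ B ∈ U, ∑ e : ((Fin N × Bool) ⊕ Fin R) ≃ β,
            (if (SS N R x).map e.toEmbedding = B then (1 : ℝ) else 0) := by
          rw [sum_comm]
          apply sum_congr rfl
          intro x _
          rw [sum_comm]
      _ = _ := by
          apply sum_congr rfl
          intro x _
          apply sum_congr rfl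
          intro B hB
          have h := card_filter_map_eq (card_index hβ) (N + R) (SS N R x) (card_SS N R x) B
            (hU B hB)
          rw [eq_div_iff hch.ne', ← h]
          push_cast
          congr 1
          rw [card_filter]
          push_cast
          rfl
  rw [← sum_div, h1]
  simp only [sum_const, card_univ, Fintype.card_finset, Fintype.card_fin, nsmul_eq_mul]
  push_cast
  field_simp

theorem card_symmDiff_filter (N t : ℕ) (x : Finset (Fin N)) :
    (univ.filter fun y : Finset (Fin N) => (symmDiff x y).card = t).card = N.choose t := by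
  have h : (univ.filter fun y : Finset (Fin N) => (symmDiff x y).card = t) =
      (powersetCard t (univ : Finset (Fin N))).map
        ⟨fun z => symmDiff x z, symmDiff_right_injective x⟩ := by
    ext y
    simp only [mem_filter, mem_univ, true_and, mem_map, mem_powersetCard, subset_univ,
      Function.Embedding.coeFn_mk]
    constructor
    · intro h
      exact ⟨symmDiff x y, h, symmDiff_symmDiff_cancel_left x y⟩
    · rintro ⟨z, hz, rfl⟩
      rw [symmDiff_symmDiff_cancel_left]
      exact hz
  rw [h, card_map, card_powersetCard, card_univ, Fintype.card_fin]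

/-- Second moment of the traces. -/
theorem sum_card_trace_mul {N R : ℕ} (hβ : Fintype.card β = 2 * N + R)
    (U W : Finset (Finset β)) (hU : ∀ B ∈ U, B.card = N + R) (hW : ∀ B ∈ W, B.card = N + R) :
    (Fintype.card β).factorial * (((U.card : ℝ) * W.card) /
      ((Fintype.card β).choose (N + R) * ((N + R).choose ((N + R) / 2) * 2 ^ N))) ≤
    ∑ e : ((Fin N × Bool) ⊕ Fin R) ≃ β,
      ((trace N R U e).card : ℝ) / 2 ^ N * (((trace N R W e).card : ℝ) / 2 ^ N) := by
  set n := Fintype.card β with hn
  set m := N + R with hm
  have hch : (0 : ℝ) < n.choose m := by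
    exact_mod_cast Nat.choose_pos (by omega)
  have hch2 : (0 : ℝ) < m.choose (m / 2) := by
    exact_mod_cast Nat.choose_pos (by omega)
  have h2 : (0 : ℝ) < 2 ^ N := by positivity
  -- expand the sum
  have h1 : ∑ e : ((Fin N × Bool) ⊕ Fin R) ≃ β,
      ((trace N R U e).card : ℝ) * ((trace N R W e).card : ℝ) =
      ∑ B ∈ U, ∑ B' ∈ W, ∑ x : Finset (Fin N), ∑ y : Finset (Fin N),
        (cnt (SS N R x) (SS N R y) B B' : ℝ) := by
    calc ∑ e : ((Fin N × Bool) ⊕ Fin R) ≃ β,
          ((trace N R U e).card : ℝ) * ((trace N R W e).card : ℝ)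
        = ∑ e : ((Fin N × Bool) ⊕ Fin R) ≃ β, ∑ B ∈ U, ∑ B' ∈ W,
            ∑ x : Finset (Fin N), ∑ y : Finset (Fin N),
            (if (SS N R x).map e.toEmbedding = B ∧ (SS N R y).map e.toEmbedding = B'
              then (1 : ℝ) else 0) := by
          apply sum_congr rfl
          intro e _
          rw [card_trace, card_trace, sum_comm, sum_comm (s := univ) (t := W), sum_mul_sum]
          apply sum_congr rfl
          intro B _
          apply sum_congr rfl
          intro B' _
          rw [sum_mul_sum]
          apply sum_congr rfl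
          intro x _
          apply sum_congr rfl
          intro y _
          by_cases h1 : (SS N R x).map e.toEmbedding = B <;>
            by_cases h2 : (SS N R y).map e.toEmbedding = B' <;> simp [h1, h2]
      _ = _ := by
          rw [sum_comm]
          apply sum_congr rfl
          intro B _
          rw [sum_comm]
          apply sum_congr rfl
          intro B' _
          rw [sum_comm]
          apply sum_congr rfl
          intro x _
          rw [sum_comm]
          apply sum_congr rfl
          intro y _
          unfold cnt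
          rw [card_filter]
          push_cast
          rfl
  -- the inner lower bound
  have h3 : ∀ B ∈ U, ∀ B' ∈ W,
      (2 ^ N : ℝ) * (n.factorial / (n.choose m * m.choose (m / 2))) ≤
      ∑ x : Finset (Fin N), ∑ y : Finset (Fin N), (cnt (SS N R x) (SS N R y) B B' : ℝ) := by
    intro B hB B' hB'
    set t := (B \ B').card with ht
    have htN : t ≤ N := by
      have e1 := card_sdiff_add_card_inter B B'
      have e2 := card_sdiff_add_card_inter B' B
      have e3 : (B' \ B).card ≤ n - B.card := by
        rw [hn, ← card_compl]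
        apply card_le_card
        intro b hb
        rw [mem_sdiff] at hb
        rw [mem_compl]
        exact hb.2
      rw [inter_comm] at e2
      have e4 := hU B hB
      have e5 := hW B' hB'
      omega
    have hx : ∀ x : Finset (Fin N), (n.factorial / (n.choose m * m.choose (m / 2)) : ℝ) ≤
        ∑ y : Finset (Fin N), (cnt (SS N R x) (SS N R y) B B' : ℝ) := by
      intro x
      have hNt : (0 : ℝ) < N.choose t := by exact_mod_cast Nat.choose_pos htN
      have hmt : (0 : ℝ) < m.choose t := by exact_mod_cast Nat.choose_pos (by omega)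
      have hcnt : ∀ y : Finset (Fin N), (symmDiff x y).card = t →
          (n.factorial / (n.choose m * (m.choose t * N.choose t)) : ℝ) ≤
            (cnt (SS N R x) (SS N R y) B B' : ℝ) := by
        intro y hy
        rw [div_le_iff₀ (by positivity)]
        have h := factorial_le_cnt (card_index hβ) m t (SS N R x) (SS N R y) (card_SS N R x)
          (card_SS N R y) (by rw [card_SS_sdiff, hy]) B B' (hU B hB) (hW B' hB') ht.symm
        have e : Fintype.card β - m = N := by omega
        rw [e] at h
        exact_mod_cast h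
      calc (n.factorial / (n.choose m * m.choose (m / 2)) : ℝ)
          ≤ n.factorial / (n.choose m * m.choose t) := by
            apply div_le_div_of_nonneg_left (by positivity) (by positivity)
            apply mul_le_mul_of_nonneg_left _ hch.le
            exact_mod_cast Nat.choose_le_middle t m
        _ = N.choose t * (n.factorial / (n.choose m * (m.choose t * N.choose t))) := by
            field_simp
        _ = ∑ y ∈ univ.filter (fun y : Finset (Fin N) => (symmDiff x y).card = t),
              (n.factorial / (n.choose m * (m.choose t * N.choose t)) : ℝ) := by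
            rw [sum_const, card_symmDiff_filter, nsmul_eq_mul]
        _ ≤ ∑ y ∈ univ.filter (fun y : Finset (Fin N) => (symmDiff x y).card = t),
              (cnt (SS N R x) (SS N R y) B B' : ℝ) := by
            apply sum_le_sum
            intro y hy
            rw [mem_filter] at hy
            exact hcnt y hy.2
        _ ≤ ∑ y : Finset (Fin N), (cnt (SS N R x) (SS N R y) B B' : ℝ) := by
            apply sum_le_sum_of_subset_of_nonneg (filter_subset _ _)
            intro y _ _
            positivity
    calc (2 ^ N : ℝ) * (n.factorial / (n.choose m * m.choose (m / 2)))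
        = ∑ x : Finset (Fin N), (n.factorial / (n.choose m * m.choose (m / 2)) : ℝ) := by
          simp [Fintype.card_finset]
      _ ≤ _ := sum_le_sum fun x _ => hx x
  have h4 : (U.card : ℝ) * W.card *
      ((2 ^ N : ℝ) * (n.factorial / (n.choose m * m.choose (m / 2)))) ≤
      ∑ e : ((Fin N × Bool) ⊕ Fin R) ≃ β,
        ((trace N R U e).card : ℝ) * ((trace N R W e).card : ℝ) := by
    rw [h1]
    calc (U.card : ℝ) * W.card * ((2 ^ N : ℝ) * (n.factorial / (n.choose m * m.choose (m / 2))))
        = ∑ B ∈ U, ∑ B' ∈ W,
            ((2 ^ N : ℝ) * (n.factorial / (n.choose m * m.choose (m / 2)))) := by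
          simp only [sum_const, nsmul_eq_mul]
          ring
      _ ≤ _ := sum_le_sum fun B hB => sum_le_sum fun B' hB' => h3 B hB B' hB'
  have h5 : ∑ e : ((Fin N × Bool) ⊕ Fin R) ≃ β,
      ((trace N R U e).card : ℝ) / 2 ^ N * (((trace N R W e).card : ℝ) / 2 ^ N) =
      (∑ e : ((Fin N × Bool) ⊕ Fin R) ≃ β,
        ((trace N R U e).card : ℝ) * ((trace N R W e).card : ℝ)) / (2 ^ N * 2 ^ N) := by
    rw [sum_div]
    apply sum_congr rfl
    intro e _
    field_simp
  rw [h5, le_div_iff₀ (by positivity)]
  refine le_trans (le_of_eq ?_) h4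
  field_simp

/-- Separated families in a layer leave room between them. -/
theorem separated_slice {N R : ℕ} (hβ : Fintype.card β = 2 * N + R) (r : ℕ)
    (U W : Finset (Finset β)) (hU : ∀ B ∈ U, B.card = N + R) (hW : ∀ B ∈ W, B.card = N + R)
    (hsep : ∀ B ∈ U, ∀ B' ∈ W, r < (B \ B').card) :
    (r : ℝ) * (((U.card : ℝ) * W.card) /
      ((Fintype.card β).choose (N + R) * ((N + R).choose ((N + R) / 2) * 2 ^ N))) ≤
    Real.sqrt N * (1 - (U.card : ℝ) / (Fintype.card β).choose (N + R) -
      (W.card : ℝ) / (Fintype.card β).choose (N + R)) := by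
  have hfac : (0 : ℝ) < (Fintype.card β).factorial := by
    exact_mod_cast Nat.factorial_pos _
  have hE : (Fintype.card (((Fin N × Bool) ⊕ Fin R) ≃ β) : ℝ) = (Fintype.card β).factorial := by
    obtain ⟨e⟩ := Fintype.card_eq.1 (card_index hβ)
    rw [Fintype.card_equiv e, card_index hβ]
  have hpt : ∀ e : ((Fin N × Bool) ⊕ Fin R) ≃ β,
      (r : ℝ) * (((trace N R U e).card : ℝ) / 2 ^ N * (((trace N R W e).card : ℝ) / 2 ^ N)) ≤
      Real.sqrt N * (1 - ((trace N R U e).card : ℝ) / 2 ^ N -
        ((trace N R W e).card : ℝ) / 2 ^ N) := by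
    intro e
    have h := separated r (trace N R U e) (trace N R W e) (by
      intro x hx y hy
      simp only [trace, mem_filter, mem_univ, true_and] at hx hy
      have h := hsep _ hx _ hy
      rw [← Finset.map_sdiff, card_map, card_SS_sdiff] at h
      exact h)
    rw [Fintype.card_fin] at h
    exact h
  have h1 := sum_le_sum fun e (_ : e ∈ (univ : Finset (((Fin N × Bool) ⊕ Fin R) ≃ β))) => hpt e
  rw [← mul_sum, ← mul_sum, sum_sub_distrib, sum_sub_distrib, sum_card_trace hβ U hU,
    sum_card_trace hβ W hW, sum_const, card_univ, nsmul_eq_mul, hE, mul_one] at h1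
  have h2 := sum_card_trace_mul hβ U W hU hW
  have h3 := mul_le_mul_of_nonneg_left h2 (Nat.cast_nonneg (α := ℝ) r)
  have h4 := h3.trans h1
  have h5 : ((Fintype.card β).factorial : ℝ) * ((r : ℝ) * (((U.card : ℝ) * W.card) /
      ((Fintype.card β).choose (N + R) * ((N + R).choose ((N + R) / 2) * 2 ^ N)))) ≤
      ((Fintype.card β).factorial : ℝ) *
      (Real.sqrt N * (1 - (U.card : ℝ) / (Fintype.card β).choose (N + R) -
      (W.card : ℝ) / (Fintype.card β).choose (N + R))) := by
    refine le_trans (le_of_eq ?_) (h4.trans (le_of_eq ?_)) <;> ring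
  exact le_of_mul_le_mul_left h5 hfac

end Pool.Agent.MP_5f127b_co
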